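import Pool.Agent.Q294.OM.Nonempty

/-!
# Typical ordered matchings of fixed interval chromatic number versus the triangle

For every `k ≥ 3` and every `ε < 1 / 2` almost every ordered matching on `n` vertices with interval
chromatic number `k` has ordered Ramsey number at most `C n ^ (2 - ε)` against the triangle.
-/

namespace Pool.Agent.Results.MP_075e78_co.AlmostEvery

open Pool.Agent.Q294.OM

/-- For every `k ≥ 3` and `0 < ε < 1 / 2` there is `C > 0` such that the fraction of those `M`,
among the ordered matchings on `2 N` vertices with interval chromatic number `k`, which satisfy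
`r_<(M, K_3) ≤ C (2 N) ^ (2 - ε)` tends to one as `N → ∞`. -/
theorem result (k : ℕ) (hk : 3 ≤ k) (ε : ℝ) (h0 : 0 < ε) (h1 : ε < 1 / 2) :
    ∃ C : ℝ, 0 < C ∧ Filter.Tendsto (fun N : ℕ =>
      (({M : SimpleGraph (Fin (2 * N)) | (IsPM M ∧ intervalChromatic M = k) ∧
        (orderedRamsey M (⊤ : SimpleGraph (Fin 3)) : ℝ) ≤
          C * ((2 * N : ℕ) : ℝ) ^ (2 - ε)}.ncard : ℕ) : ℝ) /
      (({M : SimpleGraph (Fin (2 * N)) | IsPM M ∧ intervalChromatic M = k}.ncard : ℕ) : ℝ))
      Filter.atTop (nhds 1) :=
  tendsto_small k (by omega) ε h0 h1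

end Pool.Agent.Results.MP_075e78_co.AlmostEvery
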